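import Pool.Agent.GLE.StmtsA

/-! Squad GLE, row BND: distance of two points with different size of the `L`-th iterate. -/

namespace Pool.Agent.GLE.H72

open Pool.Agent.GLE

/-- the map `z ^ 2 + c` -/
private def f (c : ℂ) : ℂ → ℂ := fun z => z ^ 2 + c

/-- an orbit which leaves the ball of radius `R ≥ 16` does not come back -/
private theorem grow (c : ℂ) (hc : ‖c‖ ≤ 16) (R : ℝ) (hR : 16 ≤ R) (z : ℂ) (hz : R < ‖z‖) :
    ∀ n, R < ‖(f c)^[n] z‖ := by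
  intro n
  induction n with
  | zero => exact hz
  | succ n ih =>
    rw [Function.iterate_succ_apply']
    set y := (f c)^[n] z
    have h1 : ‖y ^ 2‖ ≤ ‖y ^ 2 + c‖ + ‖c‖ := by
      calc ‖y ^ 2‖ = ‖(y ^ 2 + c) - c‖ := by ring_nf
        _ ≤ ‖y ^ 2 + c‖ + ‖c‖ := norm_sub_le _ _
    have h2 : ‖y ^ 2‖ = ‖y‖ ^ 2 := norm_pow y 2
    show R < ‖y ^ 2 + c‖
    nlinarith

private theorem bound (c : ℂ) (hc : ‖c‖ ≤ 16) (R : ℝ) (hR : 16 ≤ R) (z : ℂ) (L : ℕ)
    (hz : ‖(f c)^[L] z‖ ≤ R) (j : ℕ) (hj : j ≤ L) : ‖(f c)^[j] z‖ ≤ R := by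
  by_contra h
  push Not at h
  have := grow c hc R hR _ h (L - j)
  rw [← Function.iterate_add_apply, Nat.sub_add_cancel hj] at this
  linarith

private theorem lip (c : ℂ) (hc : ‖c‖ ≤ 16) (x u : ℂ) (L : ℕ) (hx : ‖(f c)^[L] x‖ ≤ 16)
    (hu : ‖(f c)^[L] u‖ ≤ 64) (j : ℕ) (hj : j ≤ L) :
    ‖(f c)^[j] u - (f c)^[j] x‖ ≤ 80 ^ j * ‖u - x‖ := by
  induction j with
  | zero => simp
  | succ j ih =>
    have ih' := ih (by omega)
    have hx' := bound c hc 16 le_rfl x L hx j (by omega)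
    have hu' := bound c hc 64 (by norm_num) u L hu j (by omega)
    rw [Function.iterate_succ_apply', Function.iterate_succ_apply']
    have e : f c ((f c)^[j] u) - f c ((f c)^[j] x) =
        ((f c)^[j] u + (f c)^[j] x) * ((f c)^[j] u - (f c)^[j] x) := by
      simp only [f]; ring
    rw [e, norm_mul, pow_succ]
    have h1 : ‖(f c)^[j] u + (f c)^[j] x‖ ≤ 80 := by
      have := norm_add_le ((f c)^[j] u) ((f c)^[j] x)
      linarith
    calc ‖(f c)^[j] u + (f c)^[j] x‖ * ‖(f c)^[j] u - (f c)^[j] x‖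
        ≤ 80 * (80 ^ j * ‖u - x‖) :=
          mul_le_mul h1 ih' (norm_nonneg _) (by norm_num)
      _ = 80 ^ j * 80 * ‖u - x‖ := by ring

theorem bnd : BndStmt := by
  intro L c x u hc hx hu1 hu2
  have hx' : ‖(f c)^[L] x‖ ≤ 16 := hx
  have hu1' : 32 ≤ ‖(f c)^[L] u‖ := hu1
  have hu2' : ‖(f c)^[L] u‖ ≤ 64 := hu2
  constructor
  · have h1 := lip c hc x u L hx' hu2' L le_rfl
    have h2 : ‖(f c)^[L] u‖ ≤ ‖(f c)^[L] u - (f c)^[L] x‖ + ‖(f c)^[L] x‖ := by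
      calc ‖(f c)^[L] u‖ = ‖((f c)^[L] u - (f c)^[L] x) + (f c)^[L] x‖ := by ring_nf
        _ ≤ _ := norm_add_le _ _
    rw [div_le_iff₀ (by positivity)]
    linarith
  · have h1 := bound c hc 16 le_rfl x L hx' 0 (Nat.zero_le _)
    have h2 := bound c hc 64 (by norm_num) u L hu2' 0 (Nat.zero_le _)
    simp only [Function.iterate_zero, id_eq] at h1 h2
    have := norm_sub_le u x
    linarith

end Pool.Agent.GLE.H72
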